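import Pool.Agent.H98.KS.Targets3

/-!
Module ME of board ks_modules: the main estimate (5.6).
-/

set_option autoImplicit false

open scoped BigOperators

namespace Pool.Agent.H84.KS.ME

open Pool.Agent.H98.KS

lemma ee_add (x y : ℝ) : ee (x + y) = ee x * ee y := by
  unfold ee
  rw [← Complex.exp_add]
  congr 1
  push_cast
  ring

lemma ee_int (n : ℤ) : ee (n : ℝ) = 1 := by
  unfold ee
  rw [Complex.exp_eq_one_iff]
  exact ⟨n, by push_cast; ring⟩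

lemma ee_add_int (x : ℝ) (n : ℤ) : ee (x + n) = ee x := by
  rw [ee_add, ee_int, mul_one]

lemma GG_period (k : ℕ) (a b : ℤ) (q : ℕ) (hq : 1 ≤ q) (s : ℤ) :
    GG k a (b + s * q) q = GG k a b q := by
  unfold GG
  congr 1
  refine Finset.sum_congr rfl fun r _ => ?_
  have hq0 : (q : ℝ) ≠ 0 := by
    have : q ≠ 0 := by omega
    exact_mod_cast this
  have h1 : ((a * (r : ℤ) ^ k + (b + s * q) * r : ℤ) : ℝ) / q =
      ((a * (r : ℤ) ^ k + b * r : ℤ) : ℝ) / q + ((s * r : ℤ) : ℝ) := by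
    push_cast
    field_simp
    ring
  rw [h1, ee_add_int]

lemma gb_period (k : ℕ) (a b : ℤ) (q : ℕ) (hq : 1 ≤ q) : gb k a (b + q) q = gb k a b q := by
  unfold gb
  have h1 := GG_period k a (-b) q hq (-1)
  have h2 := GG_period k a b q hq 1
  have h3 : -b + -1 * (q : ℤ) = -(b + q) := by ring
  have h4 : b + 1 * (q : ℤ) = b + q := by ring
  rw [h3] at h1
  rw [h4] at h2
  rw [h1, h2]

lemma gb_norm (k : ℕ) (Cg : ℝ) (hGB : GB k Cg) (q : ℕ) (a b : ℤ) (hq : 1 ≤ q)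
    (hc : IsCoprime a (q : ℤ)) : ‖gb k a b q‖ ≤ 2 * Cg * (q : ℝ) ^ (-(1 / (k : ℝ))) := by
  unfold gb
  refine (norm_add_le _ _).trans ?_
  linarith [hGB.2 q a (-b) hq hc, hGB.2 q a b hq hc]

/-- the normalised kernel of the exponential sum -/
noncomputable def al (k X : ℕ) (θ : ℝ) (n : ℤ) : ℂ :=
  if |n| ≤ (X : ℤ) then ee (θ * ((n.natAbs ^ k : ℕ) : ℝ)) / X else 0

lemma sum_al (k X R : ℕ) (θ ξ : ℝ) (hXR : X ≤ R) :
    ∑ n ∈ Finset.Icc (-(R : ℤ)) R, al k X θ n * ee (-(n * ξ)) = Ss k X θ ξ / X := by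
  unfold Ss
  rw [Finset.sum_div]
  have hsub : Finset.Icc (-(X : ℤ)) X ⊆ Finset.Icc (-(R : ℤ)) R := by
    intro n hn
    rw [Finset.mem_Icc] at hn ⊢
    omega
  rw [← Finset.sum_subset hsub]
  · refine Finset.sum_congr rfl fun n hn => ?_
    rw [Finset.mem_Icc] at hn
    have : |n| ≤ (X : ℤ) := abs_le.2 hn
    rw [al, if_pos this, sub_eq_add_neg, ee_add]
    ring
  · intro n _ hn
    rw [Finset.mem_Icc] at hn
    have : ¬ (|n| ≤ (X : ℤ)) := fun h => hn (abs_le.1 h)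
    rw [al, if_neg this, zero_mul]

lemma ft_sub {d : ℕ} (S : Finset (Fin d → ℤ)) (f g : (Fin d → ℤ) → ℂ) (ξ : Fin d → ℝ) :
    ft S (fun y => f y - g y) ξ = ft S f ξ - ft S g ξ := by
  unfold ft
  rw [← Finset.sum_sub_distrib]
  refine Finset.sum_congr rfl fun y _ => ?_
  ring

lemma conv_sub {d : ℕ} (S : Finset (Fin d → ℤ)) (K L f : (Fin d → ℤ) → ℂ) (x : Fin d → ℤ) :
    conv S (fun y => K y - L y) f x = conv S K f x - conv S L f x := by
  unfold conv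
  rw [← Finset.sum_sub_distrib]
  refine Finset.sum_congr rfl fun y _ => ?_
  ring

lemma conv_al {d : ℕ} (k X R : ℕ) (θ : ℝ) (f : (Fin d → ℤ) → ℂ) (x : Fin d → ℤ) (hXR : X ≤ R) :
    conv (bx d (-(R : ℤ)) R) (fun y => ∏ i, al k X θ (y i)) f x =
      conv (bx d (-(X : ℤ)) X) (fun y => ∏ i, ee (θ * (((y i).natAbs ^ k : ℕ) : ℝ))) f x /
        (X : ℂ) ^ d := by
  unfold conv
  rw [Finset.sum_div]
  have hsub : bx d (-(X : ℤ)) X ⊆ bx d (-(R : ℤ)) R := by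
    intro y hy
    unfold bx at hy ⊢
    rw [Fintype.mem_piFinset] at hy ⊢
    intro i
    have := hy i
    rw [Finset.mem_Icc] at this ⊢
    omega
  rw [← Finset.sum_subset hsub]
  · refine Finset.sum_congr rfl fun y hy => ?_
    unfold bx at hy
    rw [Fintype.mem_piFinset] at hy
    have h1 : ∏ i, al k X θ (y i) = ∏ i, (ee (θ * (((y i).natAbs ^ k : ℕ) : ℝ)) / X) := by
      refine Finset.prod_congr rfl fun i _ => ?_
      have h2 : |y i| ≤ (X : ℤ) := abs_le.2 (Finset.mem_Icc.1 (hy i))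
      rw [al, if_pos h2]
    show (∏ i, al k X θ (y i)) * f (x - y) =
      (∏ i, ee (θ * (((y i).natAbs ^ k : ℕ) : ℝ))) * f (x - y) / (X : ℂ) ^ d
    rw [h1, Finset.prod_div_distrib, Finset.prod_const, Finset.card_univ, Fintype.card_fin]
    ring
  · intro y _ hy
    unfold bx at hy
    rw [Fintype.mem_piFinset] at hy
    push Not at hy
    obtain ⟨i, hi⟩ := hy
    have h2 : ¬ (|y i| ≤ (X : ℤ)) := fun h => hi (Finset.mem_Icc.2 (abs_le.1 h))
    have h1 : ∏ i, al k X θ (y i) = 0 := by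
      apply Finset.prod_eq_zero (Finset.mem_univ i)
      rw [al, if_neg h2]
    show (∏ i, al k X θ (y i)) * f (x - y) = 0
    rw [h1, zero_mul]

lemma pow_le_BB (k d q : ℕ) (κ : ℝ) (hk : 3 ≤ k) (hd : 1 ≤ d) (hq : 1 ≤ q) :
    ((q : ℝ) ^ (-(1 / (k : ℝ))) * (1 + |κ|) ^ (-(e0 k))) ^ d ≤ BB k d q κ := by
  have hq0 : (0 : ℝ) < q := by
    have : 0 < q := by omega
    exact_mod_cast this
  have hk3 : (3 : ℝ) ≤ k := by exact_mod_cast hk
  have hd1 : (1 : ℝ) ≤ d := by exact_mod_cast hd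
  have he0 : 0 < e0 k := by
    unfold e0
    apply div_pos one_pos
    linarith
  have hκ1 : 1 ≤ 1 + |κ| := by
    have := abs_nonneg κ
    linarith
  have hκ0 : 0 < 1 + |κ| := by linarith
  rw [mul_pow]
  have h1 : ((q : ℝ) ^ (-(1 / (k : ℝ)))) ^ d = (q : ℝ) ^ (-((d : ℝ) / k)) := by
    rw [← Real.rpow_natCast, ← Real.rpow_mul hq0.le]
    congr 1
    ring
  have h2 : ((1 + |κ|) ^ (-(e0 k))) ^ d ≤ (1 + |κ|) ^ (-(e0 k * ((d : ℝ) - 1))) := by
    rw [← Real.rpow_natCast, ← Real.rpow_mul hκ0.le]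
    apply Real.rpow_le_rpow_of_exponent_le hκ1
    nlinarith
  have h3 : 1 ≤ (Real.log (3 + |κ|)) ^ ((1 : ℝ) / 2) := by
    apply Real.one_le_rpow _ (by norm_num)
    rw [Real.le_log_iff_exp_le (by positivity)]
    have := Real.exp_one_lt_d9
    have := abs_nonneg κ
    linarith
  rw [h1]
  unfold BB
  have hA : 0 ≤ (q : ℝ) ^ (-((d : ℝ) / k)) := by positivity
  have hB : 0 ≤ (1 + |κ|) ^ (-(e0 k * ((d : ℝ) - 1))) := by positivity
  calc (q : ℝ) ^ (-((d : ℝ) / k)) * ((1 + |κ|) ^ (-(e0 k))) ^ d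
      ≤ (q : ℝ) ^ (-((d : ℝ) / k)) * (1 + |κ|) ^ (-(e0 k * ((d : ℝ) - 1))) :=
        mul_le_mul_of_nonneg_left h2 hA
    _ = (q : ℝ) ^ (-((d : ℝ) / k)) * (1 + |κ|) ^ (-(e0 k * ((d : ℝ) - 1))) * 1 := by ring
    _ ≤ _ := mul_le_mul_of_nonneg_left h3 (mul_nonneg hA hB)

theorem ks_ME (hI1 : T_I1) (hPK : T_PK) (hSP : T_SP) (hKC : T_KC) (hFJ : T_FJ) (hUK : T_UK)
    (hUM : T_UM) (hDM : T_DM) : T_ME := by
  classical
  intro k Cg hk hGB d hd
  obtain ⟨CI, hCI, hI1⟩ := hI1 k hk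
  obtain ⟨CD, hCD, hDM⟩ := hDM k Cg hk hGB d hd
  obtain ⟨CU, hCU, hUM⟩ := hUM d
  have hCg : 1 ≤ Cg := hGB.1
  have hCg0 : 0 < Cg := by linarith
  set C0 : ℝ := 2 * CD ^ 2 + 2 * CU * (2 * Cg * CI) ^ (2 * d) with hC0
  have hC00 : 0 < C0 := by positivity
  refine ⟨C0 + 1, by positivity, ?_⟩
  intro q a κ F S j hq hcop hbig
  have hq0 : (0 : ℝ) < q := by
    have : 0 < q := by omega
    exact_mod_cast this
  set γ : ℝ := 2 * Cg * (q : ℝ) ^ (-(1 / (k : ℝ))) with hγ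
  have hγ0 : 0 ≤ γ := by positivity
  obtain ⟨c, hc0, hcv, hci⟩ := hFJ q (fun b => gb k a b q) γ hq (fun b => gb_period k a b q hq)
    (fun b => gb_norm k Cg hGB q a b hq hcop)
  set z : ℂ := II k κ 0 with hz
  set f : (Fin d → ℤ) → ℂ := Set.indicator (F : Set (Fin d → ℤ)) (fun _ => 1) with hf
  -- scales
  have hqX : ∀ m : ℕ, big (2 ^ m) q κ → q * (2 ^ m / q + 1) ≤ 2 * 2 ^ m := by
    intro m hm
    have h1 : (q : ℝ) ≤ ((2 ^ m : ℕ) : ℝ) := by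
      refine hm.1.trans ?_
      have h2 : (1 : ℝ) ≤ ((2 ^ m : ℕ) : ℝ) := by
        have : 1 ≤ 2 ^ m := Nat.one_le_two_pow
        exact_mod_cast this
      calc ((2 ^ m : ℕ) : ℝ) ^ ((1 : ℝ) / 20) ≤ ((2 ^ m : ℕ) : ℝ) ^ (1 : ℝ) :=
            Real.rpow_le_rpow_of_exponent_le h2 (by norm_num)
        _ = _ := Real.rpow_one _
    have h3 : q ≤ 2 ^ m := by exact_mod_cast h1
    have h4 := Nat.mul_div_le (2 ^ m) q
    calc q * (2 ^ m / q + 1) = q * (2 ^ m / q) + q := by ring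
      _ ≤ 2 ^ m + 2 ^ m := by omega
      _ = 2 * 2 ^ m := by ring
  set A : ℕ → (Fin d → ℤ) → ℂ := fun m y => ∏ i, al k (2 ^ m) (th k (2 ^ m) a q κ) (y i) with hA
  set U : ℕ → (Fin d → ℤ) → ℂ := fun m y => ∏ i, uk q (2 ^ m / q) z c (y i) with hU
  set Bx : ℕ → Finset (Fin d → ℤ) := fun m => bx d (-((2 * 2 ^ m : ℕ) : ℤ)) ((2 * 2 ^ m : ℕ) : ℤ)
    with hBx
  set I : Finset ℕ := S.image j with hI
  have hIbig : ∀ m ∈ I, big (2 ^ m) q κ := by
    intro m hm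
    obtain ⟨x, hx, rfl⟩ := Finset.mem_image.1 hm
    exact hbig x hx
  -- multiplier
  have hmult : ∀ ξ : Fin d → ℝ, ∑ m ∈ I, ‖ft (Bx m) (fun y => A m y - U m y) ξ‖ ^ 2 ≤
      (CD * BB k d q κ) ^ 2 := by
    intro ξ
    have h1 := hDM q a κ (vs q c) I ξ hq hcop hcv hci hIbig
    refine le_trans (le_of_eq ?_) h1
    refine Finset.sum_congr rfl fun m hm => ?_
    rw [ft_sub]
    have e1 : ft (Bx m) (A m) ξ =
        ∏ i, (Ss k (2 ^ m) (th k (2 ^ m) a q κ) (ξ i) / ((2 : ℂ) ^ m)) := by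
      rw [hBx, hA]
      simp only
      rw [hSP d (2 * 2 ^ m) (al k (2 ^ m) (th k (2 ^ m) a q κ)) ξ]
      refine Finset.prod_congr rfl fun i _ => ?_
      rw [sum_al _ _ _ _ _ (by omega)]
      push_cast
      rfl
    have e2 : ft (Bx m) (U m) ξ = ∏ i, (II k κ 0 * aX q (2 ^ m / q) (ξ i) * vs q c (ξ i)) := by
      rw [hBx, hU]
      simp only
      rw [hSP d (2 * 2 ^ m) (uk q (2 ^ m / q) z c) ξ]
      refine Finset.prod_congr rfl fun i _ => ?_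
      rw [hUK q (2 ^ m / q) (2 * 2 ^ m) z c (ξ i) hq hc0 (hqX m (hIbig m hm))]
    rw [e1, e2]
  have hfF : ∀ x, x ∉ F → f x = 0 := by
    intro x hx
    rw [hf, Set.indicator_of_notMem]
    simpa using hx
  have hPK1 := hPK d I Bx (fun m y => A m y - U m y) F S f ((CD * BB k d q κ) ^ 2) hmult hfF
  have hfsum : ∑ x ∈ F, ‖f x‖ ^ 2 = F.card := by
    have : ∀ x ∈ F, ‖f x‖ ^ 2 = (1 : ℝ) := by
      intro x hx
      rw [hf, Set.indicator_of_mem (by simpa using hx)]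
      simp
    rw [Finset.sum_congr rfl this]
    simp
  rw [hfsum] at hPK1
  have hpart1 : ∑ x ∈ S, ‖conv (Bx (j x)) (fun y => A (j x) y - U (j x) y) f x‖ ^ 2 ≤
      (CD * BB k d q κ) ^ 2 * F.card := by
    refine le_trans ?_ hPK1
    rw [Finset.sum_comm]
    refine Finset.sum_le_sum fun x hx => ?_
    exact Finset.single_le_sum
      (f := fun m => ‖conv (Bx m) (fun y => A m y - U m y) f x‖ ^ 2)
      (fun m _ => by positivity) (Finset.mem_image_of_mem j hx)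
  have hpart2 := hUM q z c γ F S (fun x => 2 ^ j x / q) (fun x => 2 * 2 ^ j x) hq hγ0 hc0 hcv
    (fun x hx => hqX (j x) (hbig x hx))
  -- the size of the main part
  have hzγ : (‖z‖ * γ) ^ (2 * d) ≤ (2 * Cg * CI) ^ (2 * d) * BB k d q κ ^ 2 := by
    have h1 : ‖z‖ * γ ≤ (2 * Cg * CI) *
        ((q : ℝ) ^ (-(1 / (k : ℝ))) * (1 + |κ|) ^ (-(e0 k))) := by
      calc ‖z‖ * γ ≤ (CI * (1 + |κ|) ^ (-(e0 k))) * γ :=
            mul_le_mul_of_nonneg_right (hI1 κ 0) hγ0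
        _ = _ := by rw [hγ]; ring
    have h2 := pow_le_BB k d q κ hk hd hq
    have h3 : 0 ≤ (q : ℝ) ^ (-(1 / (k : ℝ))) * (1 + |κ|) ^ (-(e0 k)) := by positivity
    calc (‖z‖ * γ) ^ (2 * d) ≤ ((2 * Cg * CI) *
          ((q : ℝ) ^ (-(1 / (k : ℝ))) * (1 + |κ|) ^ (-(e0 k)))) ^ (2 * d) :=
          pow_le_pow_left₀ (by positivity) h1 _
      _ = (2 * Cg * CI) ^ (2 * d) *
          (((q : ℝ) ^ (-(1 / (k : ℝ))) * (1 + |κ|) ^ (-(e0 k))) ^ d) ^ 2 := by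
          rw [mul_pow, mul_comm 2 d, pow_mul _ d 2]
          ring
      _ ≤ (2 * Cg * CI) ^ (2 * d) * BB k d q κ ^ 2 := by
          gcongr
  have hFc : (0 : ℝ) ≤ F.card := by positivity
  -- pointwise
  have hpt : ∀ x ∈ S, (‖KF k F (2 ^ j x) (th k (2 ^ j x) a q κ) x‖ / ((2 : ℝ) ^ j x) ^ d) ^ 2 ≤
      2 * ‖conv (Bx (j x)) (fun y => A (j x) y - U (j x) y) f x‖ ^ 2 +
      2 * ‖conv (Bx (j x)) (U (j x)) f x‖ ^ 2 := by
    intro x _
    have h1 : conv (Bx (j x)) (A (j x)) f x =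
        KF k F (2 ^ j x) (th k (2 ^ j x) a q κ) x / (((2 ^ j x : ℕ) : ℂ)) ^ d := by
      rw [hKC, hBx, hA]
      simp only
      rw [conv_al _ _ _ _ _ _ (by omega)]
    have h2 : conv (Bx (j x)) (A (j x)) f x =
        conv (Bx (j x)) (fun y => A (j x) y - U (j x) y) f x + conv (Bx (j x)) (U (j x)) f x := by
      rw [conv_sub]
      ring
    have h3 : ‖KF k F (2 ^ j x) (th k (2 ^ j x) a q κ) x‖ / ((2 : ℝ) ^ j x) ^ d =
        ‖conv (Bx (j x)) (A (j x)) f x‖ := by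
      rw [h1, norm_div, norm_pow, Complex.norm_natCast]
      push_cast
      rfl
    rw [h3, h2]
    have h4 := norm_add_le (conv (Bx (j x)) (fun y => A (j x) y - U (j x) y) f x)
      (conv (Bx (j x)) (U (j x)) f x)
    have h5 := norm_nonneg (conv (Bx (j x)) (fun y => A (j x) y - U (j x) y) f x +
      conv (Bx (j x)) (U (j x)) f x)
    nlinarith [sq_nonneg (‖conv (Bx (j x)) (fun y => A (j x) y - U (j x) y) f x‖ -
      ‖conv (Bx (j x)) (U (j x)) f x‖)]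
  have hBB0 : 0 ≤ BB k d q κ ^ 2 := sq_nonneg _
  calc ∑ x ∈ S, (‖KF k F (2 ^ j x) (th k (2 ^ j x) a q κ) x‖ / ((2 : ℝ) ^ j x) ^ d) ^ 2
      ≤ ∑ x ∈ S, (2 * ‖conv (Bx (j x)) (fun y => A (j x) y - U (j x) y) f x‖ ^ 2 +
        2 * ‖conv (Bx (j x)) (U (j x)) f x‖ ^ 2) := Finset.sum_le_sum hpt
    _ = 2 * ∑ x ∈ S, ‖conv (Bx (j x)) (fun y => A (j x) y - U (j x) y) f x‖ ^ 2 +
        2 * ∑ x ∈ S, ‖conv (Bx (j x)) (U (j x)) f x‖ ^ 2 := by
        rw [Finset.sum_add_distrib, ← Finset.mul_sum, ← Finset.mul_sum]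
    _ ≤ 2 * ((CD * BB k d q κ) ^ 2 * F.card) +
        2 * (CU * (‖z‖ * γ) ^ (2 * d) * F.card) := by
        refine add_le_add (mul_le_mul_of_nonneg_left hpart1 (by norm_num))
          (mul_le_mul_of_nonneg_left hpart2 (by norm_num))
    _ ≤ 2 * ((CD * BB k d q κ) ^ 2 * F.card) +
        2 * (CU * ((2 * Cg * CI) ^ (2 * d) * BB k d q κ ^ 2) * F.card) := by
        gcongr
    _ = C0 * BB k d q κ ^ 2 * F.card := by
        rw [hC0]
        ring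
    _ ≤ ((C0 + 1) * BB k d q κ) ^ 2 * F.card := by
        apply mul_le_mul_of_nonneg_right _ hFc
        rw [mul_pow]
        apply mul_le_mul_of_nonneg_right _ hBB0
        nlinarith

end Pool.Agent.H84.KS.ME
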