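import Pool.Agent.H98.KS.Targets1

/-!
Module RL of board ks_modules: the recurrence lemma.
-/

set_option autoImplicit false

open scoped BigOperators

namespace Pool.Agent.H84.KS

open Pool.Agent.H98.KS

lemma dn_le (x : ℝ) (z : ℤ) : dn x ≤ |x - z| := round_le x z

lemma dn_nonneg (x : ℝ) : 0 ≤ dn x := abs_nonneg _

lemma dn_sub_le (x y : ℝ) : dn (x - y) ≤ dn x + dn y := by
  calc dn (x - y) ≤ |x - y - ((round x - round y : ℤ) : ℝ)| := dn_le _ _
    _ = |(x - round x) - (y - round y)| := by push_cast; ring_nf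
    _ ≤ |x - round x| + |y - round y| := abs_sub _ _
    _ = dn x + dn y := rfl

lemma card_le_of_diam (T : Finset ℤ) (D : ℝ) (hD : 0 ≤ D)
    (h : ∀ x ∈ T, ∀ y ∈ T, (x : ℝ) - y ≤ D) : (T.card : ℝ) ≤ D + 1 := by
  rcases T.eq_empty_or_nonempty with rfl | hT
  · simp only [Finset.card_empty, Nat.cast_zero]
    linarith
  · have hsub : T ⊆ Finset.Icc (T.min' hT) (T.max' hT) := fun x hx =>
      Finset.mem_Icc.2 ⟨T.min'_le x hx, T.le_max' x hx⟩
    have h1 := Finset.card_le_card hsub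
    rw [Int.card_Icc] at h1
    have h2 := h _ (T.max'_mem hT) _ (T.min'_mem hT)
    have h3 : T.min' hT ≤ T.max' hT := T.min'_le _ (T.max'_mem hT)
    have h4 : (((T.max' hT + 1 - T.min' hT).toNat : ℤ) : ℝ) = ((T.max' hT : ℤ) : ℝ) + 1 -
        ((T.min' hT : ℤ) : ℝ) := by
      rw [Int.toNat_of_nonneg (by linarith)]
      push_cast
      ring
    have h5 : (T.card : ℝ) ≤ (((T.max' hT + 1 - T.min' hT).toNat : ℤ) : ℝ) := by
      exact_mod_cast h1
    rw [h4] at h5
    linarith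

lemma count (T : Finset ℤ) (c t ε M : ℝ) (ht : t ≠ 0) (hε : 0 ≤ ε) (hM0 : 0 ≤ M)
    (hM : ∀ x ∈ T, ∀ y ∈ T, |(x : ℝ) - y| ≤ M) (hd : ∀ m ∈ T, dn (c + m * t) ≤ ε) :
    (T.card : ℝ) ≤ (|t| * M + 2 * ε + 1) * (2 * ε / |t| + 1) := by
  classical
  have htp : 0 < |t| := abs_pos.2 ht
  set f : ℤ → ℤ := fun m => round (c + m * t) with hf
  have hfd : ∀ m ∈ T, |c + m * t - f m| ≤ ε := fun m hm => hd m hm
  have himg : ((T.image f).card : ℝ) ≤ |t| * M + 2 * ε + 1 := by
    apply card_le_of_diam _ _ (by positivity)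
    intro x hx y hy
    obtain ⟨m, hm, rfl⟩ := Finset.mem_image.1 hx
    obtain ⟨m', hm', rfl⟩ := Finset.mem_image.1 hy
    have h1 := abs_le.1 (hfd m hm)
    have h2 := abs_le.1 (hfd m' hm')
    have h3 : (m : ℝ) * t - m' * t ≤ |t| * M := by
      calc (m : ℝ) * t - m' * t ≤ |((m : ℝ) - m') * t| := by
            rw [← sub_mul]; exact le_abs_self _
        _ = |t| * |(m : ℝ) - m'| := by rw [abs_mul, mul_comm]
        _ ≤ |t| * M := mul_le_mul_of_nonneg_left (hM m hm m' hm') htp.le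
    linarith [h1.1, h1.2, h2.1, h2.2]
  have hfib : ∀ a ∈ T.image f, ((T.filter (fun m => f m = a)).card : ℝ) ≤ 2 * ε / |t| + 1 := by
    intro a _
    apply card_le_of_diam _ _ (by positivity)
    intro x hx y hy
    rw [Finset.mem_filter] at hx hy
    have h1 := hfd x hx.1
    have h2 := hfd y hy.1
    rw [hx.2] at h1
    rw [hy.2] at h2
    have h3 : |((x : ℝ) - y) * t| ≤ 2 * ε := by
      have : ((x : ℝ) - y) * t = (c + x * t - a) - (c + y * t - a) := by ring
      rw [this]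
      calc |(c + x * t - a) - (c + y * t - a)| ≤ |c + x * t - a| + |c + y * t - a| := abs_sub _ _
        _ ≤ 2 * ε := by linarith
    rw [abs_mul] at h3
    rw [le_div_iff₀ htp]
    exact (mul_le_mul_of_nonneg_right (le_abs_self _) htp.le).trans h3
  have h0 : (T.card : ℝ) = ∑ b ∈ T.image f, ((T.filter (fun m => f m = b)).card : ℝ) := by
    rw [Finset.card_eq_sum_card_image f T]
    push_cast
    rfl
  rw [h0]
  calc ∑ b ∈ T.image f, ((T.filter (fun m => f m = b)).card : ℝ)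
      ≤ ∑ _b ∈ T.image f, (2 * ε / |t| + 1) := Finset.sum_le_sum hfib
    _ = ((T.image f).card : ℝ) * (2 * ε / |t| + 1) := by rw [Finset.sum_const, nsmul_eq_mul]
    _ ≤ _ := mul_le_mul_of_nonneg_right himg (by positivity)

theorem ks_RL : T_RL := by
  classical
  intro L β ρ ε δ S hL hε hδ hδ1 hS hcard hdn hεδ hLδ
  have hL0 : 0 < L := by linarith
  have hδL : 64 ≤ δ * L := by
    have h1 : 64 / δ ^ 2 * δ ^ 2 = 64 := by field_simp
    have h2 : 64 ≤ δ ^ 2 * L := by
      calc (64 : ℝ) = 64 / δ ^ 2 * δ ^ 2 := h1.symm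
        _ ≤ L * δ ^ 2 := mul_le_mul_of_nonneg_right hLδ (by positivity)
        _ = δ ^ 2 * L := by ring
    have h3 : δ ^ 2 * L ≤ δ * L := by
      apply mul_le_mul_of_nonneg_right _ hL0.le
      nlinarith
    linarith
  -- two close elements
  obtain ⟨h, hh, h', hh', hlt, hclose⟩ : ∃ h ∈ S, ∃ h' ∈ S, h < h' ∧ ((h' : ℝ) - h) ≤ 4 / δ := by
    set g : ℤ → ℤ := fun h => ⌊(h : ℝ) * (δ / 4)⌋ with hg
    have hmaps : ∀ h ∈ S, g h ∈ Finset.Icc ⌊-L * (δ / 4)⌋ ⌊L * (δ / 4)⌋ := by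
      intro h hh
      have h1 := abs_le.1 (hS h hh)
      rw [Finset.mem_Icc]
      constructor
      · apply Int.floor_le_floor
        exact mul_le_mul_of_nonneg_right h1.1 (by positivity)
      · apply Int.floor_le_floor
        exact mul_le_mul_of_nonneg_right h1.2 (by positivity)
    have hc : (Finset.Icc ⌊-L * (δ / 4)⌋ ⌊L * (δ / 4)⌋).card < S.card := by
      rw [Int.card_Icc]
      have h1 : (⌊L * (δ / 4)⌋ : ℝ) ≤ L * (δ / 4) := Int.floor_le _
      have h2 : -L * (δ / 4) - 1 < (⌊-L * (δ / 4)⌋ : ℝ) := Int.sub_one_lt_floor _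
      have h3 : ⌊-L * (δ / 4)⌋ ≤ ⌊L * (δ / 4)⌋ := by
        apply Int.floor_le_floor
        have : 0 ≤ L * (δ / 4) := by positivity
        linarith
      have h4 : (((⌊L * (δ / 4)⌋ + 1 - ⌊-L * (δ / 4)⌋).toNat : ℤ) : ℝ) < (S.card : ℝ) := by
        rw [Int.toNat_of_nonneg (by linarith)]
        push_cast
        nlinarith
      exact_mod_cast h4
    obtain ⟨a, ha, b, hb, hab, hfab⟩ := Finset.exists_ne_map_eq_of_card_lt_of_maps_to hc hmaps
    have key : ∀ u v : ℤ, g u = g v → ((v : ℝ) - u) ≤ 4 / δ := by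
      intro u v huv
      have h1 : (g v : ℝ) ≤ (v : ℝ) * (δ / 4) := Int.floor_le _
      have h1' : (v : ℝ) * (δ / 4) < g v + 1 := Int.lt_floor_add_one _
      have h2 : (g u : ℝ) ≤ (u : ℝ) * (δ / 4) := Int.floor_le _
      have h3 : (g u : ℝ) = g v := by rw [huv]
      have h4 : ((v : ℝ) - u) * (δ / 4) ≤ 1 := by
        have : ((v : ℝ) - u) * (δ / 4) = v * (δ / 4) - u * (δ / 4) := by ring
        rw [this]
        linarith
      rw [le_div_iff₀ hδ]
      linarith
    rcases lt_or_gt_of_ne hab with hlt | hlt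
    · exact ⟨a, ha, b, hb, hlt, key a b hfab⟩
    · exact ⟨b, hb, a, ha, hlt, key b a hfab.symm⟩
  obtain ⟨q, hq⟩ : ∃ q : ℕ, (q : ℤ) = h' - h := ⟨(h' - h).toNat, Int.toNat_of_nonneg (by omega)⟩
  have hq1 : 1 ≤ q := by omega
  have hqR : (q : ℝ) = (h' : ℝ) - h := by
    have : ((q : ℤ) : ℝ) = ((h' - h : ℤ) : ℝ) := by rw [hq]
    push_cast at this
    exact this
  have hq0 : (0 : ℝ) < q := by exact_mod_cast hq1
  refine ⟨q, hq1, by rw [hqR]; exact hclose, ?_⟩
  set η := dn (q * β) with hη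
  have hη0 : 0 ≤ η := dn_nonneg _
  have hη2 : η ≤ 2 * ε := by
    have h1 : (q : ℝ) * β = (β * h' + ρ) - (β * h + ρ) := by rw [hqR]; ring
    rw [hη, h1]
    calc dn ((β * h' + ρ) - (β * h + ρ)) ≤ dn (β * h' + ρ) + dn (β * h + ρ) := dn_sub_le _ _
      _ ≤ 2 * ε := by linarith [hdn h' hh', hdn h hh]
  rcases hη0.eq_or_lt with h0 | hηp
  · rw [← h0]
    positivity
  set t : ℝ := q * β - round (q * β) with ht
  have htη : |t| = η := rfl
  have ht0 : t ≠ 0 := by
    intro h0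
    rw [h0, abs_zero] at htη
    linarith
  have hεp : 0 < ε := by linarith
  -- count per residue class
  have hcls : ∀ r ∈ Finset.Ico (0 : ℤ) q, ((S.filter (fun h => h % (q : ℤ) = r)).card : ℝ) ≤
      (η * (2 * L / q) + 2 * ε + 1) * (2 * ε / η + 1) := by
    intro r _
    set Sr := S.filter (fun h => h % (q : ℤ) = r) with hSr
    have hdec : ∀ h ∈ Sr, h = r + q * (h / (q : ℤ)) := by
      intro h hh
      rw [hSr, Finset.mem_filter] at hh
      have := Int.emod_add_mul_ediv h q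
      rw [hh.2] at this
      linarith
    have hinj : Set.InjOn (fun h : ℤ => h / (q : ℤ)) (Sr : Set ℤ) := by
      intro a ha b hb hab
      have h1 := hdec a ha
      have h2 := hdec b hb
      simp only at hab
      rw [h1, h2, hab]
    rw [← Finset.card_image_of_injOn hinj, ← htη]
    apply count (Sr.image (fun h : ℤ => h / (q : ℤ))) (β * r + ρ) t ε (2 * L / q) ht0 hε
      (by positivity)
    · intro x hx y hy
      obtain ⟨a, ha, rfl⟩ := Finset.mem_image.1 hx
      obtain ⟨b, hb, rfl⟩ := Finset.mem_image.1 hy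
      have h1 : (a : ℝ) = r + q * ((a / (q : ℤ) : ℤ) : ℝ) := by
        have := hdec a ha
        exact_mod_cast this
      have h2 : (b : ℝ) = r + q * ((b / (q : ℤ) : ℤ) : ℝ) := by
        have := hdec b hb
        exact_mod_cast this
      have h3 : (((a / (q : ℤ) : ℤ) : ℝ) - ((b / (q : ℤ) : ℤ) : ℝ)) = ((a : ℝ) - b) / q := by
        rw [h1, h2]
        field_simp
        ring
      rw [h3, abs_div, abs_of_pos hq0]
      apply div_le_div_of_nonneg_right _ hq0.le
      rw [hSr, Finset.mem_filter] at ha hb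
      have h4 := hS a ha.1
      have h5 := hS b hb.1
      calc |(a : ℝ) - b| ≤ |(a : ℝ)| + |(b : ℝ)| := abs_sub _ _
        _ ≤ 2 * L := by linarith
    · intro m hm
      obtain ⟨a, ha, rfl⟩ := Finset.mem_image.1 hm
      have h1 : (a : ℝ) = r + q * ((a / (q : ℤ) : ℤ) : ℝ) := by
        have := hdec a ha
        exact_mod_cast this
      have haS : a ∈ S := by
        rw [hSr, Finset.mem_filter] at ha
        exact ha.1
      have h2 := hdn a haS
      refine le_trans ?_ h2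
      refine (dn_le _ (round (β * a + ρ) - (a / (q : ℤ)) * round ((q : ℝ) * β))).trans (le_of_eq ?_)
      rw [dn]
      congr 1
      push_cast
      rw [ht]
      have h3 : β * (a : ℝ) = β * r + ((a / (q : ℤ) : ℤ) : ℝ) * (q * β) := by
        conv_lhs => rw [h1]
        ring
      rw [h3]
      ring
  have htot : (S.card : ℝ) ≤ q * ((η * (2 * L / q) + 2 * ε + 1) * (2 * ε / η + 1)) := by
    have h1 : S.card = ∑ r ∈ Finset.Ico (0 : ℤ) q, (S.filter (fun h => h % (q : ℤ) = r)).card := by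
      apply Finset.card_eq_sum_card_fiberwise
      intro x _
      simp only [Finset.coe_Ico, Set.mem_Ico]
      have hqz : (0 : ℤ) < q := by exact_mod_cast hq1
      exact ⟨Int.emod_nonneg _ hqz.ne', Int.emod_lt_of_pos _ hqz⟩
    rw [h1]
    push_cast
    calc ∑ r ∈ Finset.Ico (0 : ℤ) q, ((S.filter (fun h => h % (q : ℤ) = r)).card : ℝ)
        ≤ ∑ _r ∈ Finset.Ico (0 : ℤ) q, ((η * (2 * L / q) + 2 * ε + 1) * (2 * ε / η + 1)) :=
          Finset.sum_le_sum hcls
      _ = _ := by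
          rw [Finset.sum_const, nsmul_eq_mul, Int.card_Ico]
          simp
  -- conclusion
  have hA : 2 * ε / η + 1 ≤ 4 * ε / η := by
    have : 1 ≤ 2 * ε / η := by rwa [le_div_iff₀ hηp, one_mul]
    calc 2 * ε / η + 1 ≤ 2 * ε / η + 2 * ε / η := by linarith
      _ = 4 * ε / η := by ring
  have hB : q * ((η * (2 * L / q) + 2 * ε + 1) * (2 * ε / η + 1)) ≤
      8 * L * ε + 4 * q * (2 * ε + 1) * ε / η := by
    calc q * ((η * (2 * L / q) + 2 * ε + 1) * (2 * ε / η + 1))
        ≤ q * ((η * (2 * L / q) + 2 * ε + 1) * (4 * ε / η)) := by gcongr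
      _ = 8 * L * ε + 4 * q * (2 * ε + 1) * ε / η := by
          field_simp
          ring
  have hC : δ * L ≤ 8 * L * ε + 4 * q * (2 * ε + 1) * ε / η := hcard.trans (htot.trans hB)
  have hD : 8 * L * ε ≤ δ * L / 8 := by nlinarith
  have hE : 7 / 8 * (δ * L) ≤ 4 * q * (2 * ε + 1) * ε / η := by linarith
  rw [le_div_iff₀ hηp] at hE
  have hF : 4 * q * (2 * ε + 1) * ε ≤ 33 / 8 * (4 / δ) * ε := by
    have h1 : (q : ℝ) ≤ 4 / δ := by rw [hqR]; exact hclose
    have h2 : 2 * ε + 1 ≤ 33 / 32 := by linarith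
    have h3 : 4 * (q : ℝ) * (2 * ε + 1) ≤ 4 * (4 / δ) * (33 / 32) := by
      have : 0 ≤ 4 / δ := by positivity
      gcongr
    calc 4 * (q : ℝ) * (2 * ε + 1) * ε ≤ 4 * (4 / δ) * (33 / 32) * ε :=
          mul_le_mul_of_nonneg_right h3 hε
      _ = _ := by ring
  have hG : 7 / 8 * (δ * L) * η ≤ 33 / 8 * (4 / δ) * ε := hE.trans hF
  rw [le_div_iff₀ (by positivity)]
  have hH : 7 / 8 * (δ ^ 2 * L) * η ≤ 33 / 2 * ε := by
    have : 7 / 8 * (δ ^ 2 * L) * η = δ * (7 / 8 * (δ * L) * η) := by ring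
    rw [this]
    calc δ * (7 / 8 * (δ * L) * η) ≤ δ * (33 / 8 * (4 / δ) * ε) :=
          mul_le_mul_of_nonneg_left hG hδ.le
      _ = 33 / 2 * ε := by
          field_simp
          ring
  nlinarith

end Pool.Agent.H84.KS
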