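import Pool.Agent.H98.KS.Targets3

/-!
Module SB of board ks_modules: the bounds (S1), (S2), (S3).
-/

set_option autoImplicit false

open scoped BigOperators

namespace Pool.Agent.H84.KS.SB

open Pool.Agent.H98.KS

lemma rpow_le_bb0 (k X q : ℕ) (κ : ℝ) (hk : 3 ≤ k) (hq : 1 ≤ q) (hX : 1 ≤ X)
    (hbig : big X q κ) : (X : ℝ) ^ (-((1 : ℝ) / 20)) ≤ 2 * bb0 k q κ := by
  have hX1 : (1 : ℝ) ≤ X := by exact_mod_cast hX
  have hX0 : (0 : ℝ) < X := by linarith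
  have hq1 : (1 : ℝ) ≤ q := by exact_mod_cast hq
  have hq0 : (0 : ℝ) < q := by linarith
  have hk3 : (3 : ℝ) ≤ k := by exact_mod_cast hk
  set Y : ℝ := (X : ℝ) ^ ((1 : ℝ) / 20) with hY
  have hY1 : 1 ≤ Y := Real.one_le_rpow hX1 (by norm_num)
  have hY0 : 0 < Y := by linarith
  have he0 : 0 < e0 k := by
    unfold e0
    apply div_pos one_pos
    linarith
  have he1 : e0 k ≤ 1 / 4 := by
    unfold e0
    apply one_div_le_one_div_of_le (by norm_num)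
    linarith
  have hk1 : 1 / (k : ℝ) ≤ 1 / 3 := one_div_le_one_div_of_le (by norm_num) hk3
  have hk0 : 0 < 1 / (k : ℝ) := by positivity
  have h1 : Y ^ (-(1 / (k : ℝ))) ≤ (q : ℝ) ^ (-(1 / (k : ℝ))) :=
    Real.rpow_le_rpow_of_nonpos hq0 hbig.1 (by linarith)
  have h2 : (2 * Y) ^ (-(e0 k)) ≤ (1 + |κ|) ^ (-(e0 k)) := by
    apply Real.rpow_le_rpow_of_nonpos (by positivity) _ (by linarith)
    have := hbig.2
    linarith
  have h3 : (1 : ℝ) / 2 ≤ (2 : ℝ) ^ (-(e0 k)) := by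
    have : (2 : ℝ) ^ (-(1 : ℝ)) ≤ (2 : ℝ) ^ (-(e0 k)) :=
      Real.rpow_le_rpow_of_exponent_le (by norm_num) (by linarith)
    rw [Real.rpow_neg_one] at this
    linarith
  have h4 : (X : ℝ) ^ (-((1 : ℝ) / 20)) = Y ^ (-(1 : ℝ)) := by
    rw [hY, ← Real.rpow_mul hX0.le]
    congr 1
    ring
  have h5 : Y ^ (-(1 : ℝ)) ≤ Y ^ (-(1 / (k : ℝ))) * Y ^ (-(e0 k)) := by
    rw [← Real.rpow_add hY0]
    apply Real.rpow_le_rpow_of_exponent_le hY1
    linarith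
  have h6 : (2 * Y) ^ (-(e0 k)) = (2 : ℝ) ^ (-(e0 k)) * Y ^ (-(e0 k)) :=
    Real.mul_rpow (by norm_num) hY0.le
  have hA : 0 ≤ Y ^ (-(1 / (k : ℝ))) := by positivity
  have hB : 0 ≤ Y ^ (-(e0 k)) := by positivity
  rw [h4]
  unfold bb0
  calc Y ^ (-(1 : ℝ)) ≤ Y ^ (-(1 / (k : ℝ))) * Y ^ (-(e0 k)) := h5
    _ = 2 * (Y ^ (-(1 / (k : ℝ))) * (1 / 2 * Y ^ (-(e0 k)))) := by ring
    _ ≤ 2 * (Y ^ (-(1 / (k : ℝ))) * ((2 : ℝ) ^ (-(e0 k)) * Y ^ (-(e0 k)))) := by gcongr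
    _ ≤ 2 * ((q : ℝ) ^ (-(1 / (k : ℝ))) * (1 + |κ|) ^ (-(e0 k))) := by
        rw [← h6]
        gcongr

theorem ks_SB (hSH : T_SH) (hAP : T_AP) (hI1 : T_I1) (hI2 : T_I2) : T_SB := by
  intro k Cg hk hGB
  obtain ⟨C1, hC1, hAP⟩ := hAP k hk
  obtain ⟨C2, hC2, hI1⟩ := hI1 k hk
  have hCg : 1 ≤ Cg := hGB.1
  have hCg0 : 0 < Cg := by linarith
  refine ⟨2 * (1 + 2 * C1) + 2 * Cg * C2 + 8 * Cg, by positivity, ?_⟩
  intro X q a b κ β hq hX hcop hbig hβ
  have hX1 : (1 : ℝ) ≤ X := by exact_mod_cast hX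
  have hX0 : (0 : ℝ) < X := by linarith
  have hXc : (X : ℂ) ≠ 0 := by
    have : X ≠ 0 := by omega
    exact_mod_cast this
  set r : ℝ := (X : ℝ) ^ (-((1 : ℝ) / 20)) with hr
  have hr0 : 0 ≤ r := by positivity
  set g : ℝ := (q : ℝ) ^ (-(1 / (k : ℝ))) with hg
  have hg0 : 0 ≤ g := by positivity
  have hinv : 1 / (X : ℝ) ≤ r := by
    rw [one_div, ← Real.rpow_neg_one]
    exact Real.rpow_le_rpow_of_exponent_le hX1 (by norm_num)
  set θ := th k X a q κ with hθ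
  set ξ : ℝ := (b : ℝ) / q + β with hξ
  have hS := hSH k X θ ξ (by omega)
  have hA1 := hAP X q a b κ β hq hX hbig hβ
  have hA2 := hAP X q a (-b) κ (-β) hq hX hbig (by rwa [abs_neg])
  have hξ' : (((-b : ℤ)) : ℝ) / q + -β = -ξ := by
    rw [hξ]
    push_cast
    ring
  rw [hξ', neg_neg] at hA2
  rw [← hθ, ← hξ] at hA1
  rw [← hθ] at hA2
  set H1 := Hs k X θ ξ / X with hH1
  set H2 := Hs k X θ (-ξ) / X with hH2
  have hG1 := hGB.2 q a (-b) hq hcop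
  have hG2 := hGB.2 q a b hq hcop
  rw [← hg] at hG1 hG2
  set G1 := GG k a (-b) q with hG1d
  set G2 := GG k a b q with hG2d
  have hSX : Ss k X θ ξ / X = 1 / (X : ℂ) + H1 + H2 := by
    rw [hS, hH1, hH2]
    ring
  have hnX : ‖Ss k X θ ξ‖ / X = ‖1 / (X : ℂ) + H1 + H2‖ := by
    rw [← hSX, norm_div, Complex.norm_natCast]
  have h1X : ‖1 / (X : ℂ)‖ ≤ r := by
    rw [norm_div, norm_one, Complex.norm_natCast]
    exact hinv
  have hmain : ∀ M : ℝ, ‖II k κ (X * β)‖ ≤ M → ‖II k κ (X * -β)‖ ≤ M →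
      ‖1 / (X : ℂ) + H1 + H2‖ ≤ (1 + 2 * C1) * r + 2 * Cg * (g * M) := by
    intro M hM1 hM2
    have hM0 : 0 ≤ M := (norm_nonneg _).trans hM1
    have e1 : ‖H1‖ ≤ C1 * r + Cg * (g * M) := by
      have : H1 = (H1 - G1 * II k κ (X * β)) + G1 * II k κ (X * β) := by ring
      rw [this]
      refine (norm_add_le _ _).trans (add_le_add hA1 ?_)
      rw [norm_mul]
      calc ‖G1‖ * ‖II k κ (X * β)‖ ≤ (Cg * g) * M :=
            mul_le_mul hG1 hM1 (norm_nonneg _) (by positivity)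
        _ = _ := by ring
    have e2 : ‖H2‖ ≤ C1 * r + Cg * (g * M) := by
      have : H2 = (H2 - G2 * II k κ (X * -β)) + G2 * II k κ (X * -β) := by ring
      rw [this]
      refine (norm_add_le _ _).trans (add_le_add hA2 ?_)
      rw [norm_mul]
      calc ‖G2‖ * ‖II k κ (X * -β)‖ ≤ (Cg * g) * M :=
            mul_le_mul hG2 hM2 (norm_nonneg _) (by positivity)
        _ = _ := by ring
    calc ‖1 / (X : ℂ) + H1 + H2‖ ≤ ‖1 / (X : ℂ)‖ + ‖H1‖ + ‖H2‖ := norm_add₃_le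
      _ ≤ _ := by linarith
  refine ⟨?_, ?_, ?_⟩
  · rw [hnX]
    have h1 := hmain (C2 * (1 + |κ|) ^ (-(e0 k))) (hI1 κ _) (hI1 κ _)
    refine h1.trans ?_
    have h2 := rpow_le_bb0 k X q κ hk hq hX hbig
    have h3 : g * (C2 * (1 + |κ|) ^ (-(e0 k))) = C2 * bb0 k q κ := by
      rw [bb0, hg]
      ring
    have hbb : 0 ≤ bb0 k q κ := by
      unfold bb0
      positivity
    rw [h3]
    rw [← hr] at h2
    nlinarith [mul_le_mul_of_nonneg_left h2 (by positivity : 0 ≤ 1 + 2 * C1), mul_nonneg hCg0.le hbb]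
  · rw [hSX]
    have hgb : gb k a b q = G1 + G2 := rfl
    rw [hgb]
    have hI2a := (hI2 k κ (X * β) (by omega)).2.1
    have hI2b := (hI2 k κ (X * -β) (by omega)).2.1
    have habs : |(X : ℝ) * β| = X * |β| := by rw [abs_mul, abs_of_pos hX0]
    have habs' : |(X : ℝ) * -β| = X * |β| := by rw [abs_mul, abs_neg, abs_of_pos hX0]
    rw [habs] at hI2a
    rw [habs'] at hI2b
    have e1 : ‖H1 - G1 * II k κ 0‖ ≤ C1 * r + Cg * (g * (4 * (X * |β|))) := by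
      have : H1 - G1 * II k κ 0 = (H1 - G1 * II k κ (X * β)) +
        G1 * (II k κ (X * β) - II k κ 0) := by ring
      rw [this]
      refine (norm_add_le _ _).trans (add_le_add hA1 ?_)
      rw [norm_mul]
      calc ‖G1‖ * ‖II k κ (X * β) - II k κ 0‖ ≤ (Cg * g) * (4 * (X * |β|)) :=
            mul_le_mul hG1 hI2a (norm_nonneg _) (by positivity)
        _ = _ := by ring
    have e2 : ‖H2 - G2 * II k κ 0‖ ≤ C1 * r + Cg * (g * (4 * (X * |β|))) := by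
      have : H2 - G2 * II k κ 0 = (H2 - G2 * II k κ (X * -β)) +
        G2 * (II k κ (X * -β) - II k κ 0) := by ring
      rw [this]
      refine (norm_add_le _ _).trans (add_le_add hA2 ?_)
      rw [norm_mul]
      calc ‖G2‖ * ‖II k κ (X * -β) - II k κ 0‖ ≤ (Cg * g) * (4 * (X * |β|)) :=
            mul_le_mul hG2 hI2b (norm_nonneg _) (by positivity)
        _ = _ := by ring
    have e3 : 1 / (X : ℂ) + H1 + H2 - (G1 + G2) * II k κ 0 =
        1 / (X : ℂ) + (H1 - G1 * II k κ 0) + (H2 - G2 * II k κ 0) := by ring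
    rw [e3]
    refine norm_add₃_le.trans ?_
    have hgX : 0 ≤ g * (X * |β|) := by positivity
    nlinarith [mul_nonneg hC1.le hr0, mul_nonneg (mul_pos hCg0 hC2).le hgX,
      mul_nonneg hC1.le hgX, mul_nonneg (mul_pos hCg0 hC2).le hr0, mul_nonneg hCg0.le hr0]
  · intro hβ0
    rw [hnX]
    have hβp : 0 < |β| := abs_pos.2 hβ0
    have hXβ : 0 < (X : ℝ) * |β| := by positivity
    have habs : |(X : ℝ) * β| = X * |β| := by rw [abs_mul, abs_of_pos hX0]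
    have habs' : |(X : ℝ) * -β| = X * |β| := by rw [abs_mul, abs_neg, abs_of_pos hX0]
    have hI2a := (hI2 k κ (X * β) (by omega)).1
    have hI2b := (hI2 k κ (X * -β) (by omega)).1
    rw [habs] at hI2a
    rw [habs'] at hI2b
    have h1 := hmain ((1 + |κ|) / (X * |β|))
      (by rw [le_div_iff₀ hXβ, mul_comm]; exact hI2a) (by rw [le_div_iff₀ hXβ, mul_comm]; exact hI2b)
    refine h1.trans ?_
    have hgX : 0 ≤ g * ((1 + |κ|) / (X * |β|)) := by positivity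
    nlinarith [mul_nonneg hC1.le hr0, mul_nonneg (mul_pos hCg0 hC2).le hgX,
      mul_nonneg hC1.le hgX, mul_nonneg (mul_pos hCg0 hC2).le hr0, mul_nonneg hCg0.le hr0,
      mul_nonneg hCg0.le hgX]

end Pool.Agent.H84.KS.SB
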