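import Pool.Agent.H98.KS.Targets1

/-!
Module SG of board ks_modules: a large coordinate sum forces a rational relation.
-/

set_option autoImplicit false

open scoped BigOperators

namespace Pool.Agent.H84.KS.SG

open Pool.Agent.H98.KS Polynomial

lemma dn_neg_le (x : ℝ) : dn (-x) ≤ dn x := by
  have h := round_le (-x) (-(round x))
  refine h.trans (le_of_eq ?_)
  rw [dn]
  push_cast
  rw [← abs_neg]
  congr 1
  ring

/-- the sign of a coordinate -/
noncomputable def sgn (k : ℕ) (b : Bool) : ℤ := if b then 1 else (-1) ^ k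

lemma sgn_or (k : ℕ) (b : Bool) : sgn k b = 1 ∨ sgn k b = -1 := by
  unfold sgn
  cases b
  · rcases neg_one_pow_eq_or ℤ k with h | h
    · left; simpa using h
    · right; simpa using h
  · left; simp

lemma natAbs_pow_eq (k : ℕ) (x u : ℤ) :
    (((x - u).natAbs ^ k : ℕ) : ℝ) = (sgn k (decide (u ≤ x)) : ℝ) * ((x : ℝ) - u) ^ k := by
  by_cases h : u ≤ x
  · have h1 : (((x - u).natAbs : ℤ)) = x - u := Int.natAbs_of_nonneg (by omega)
    have h2 : (((x - u).natAbs : ℕ) : ℝ) = (x : ℝ) - u := by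
      have : ((((x - u).natAbs : ℕ) : ℤ) : ℝ) = ((x - u : ℤ) : ℝ) := by rw [h1]
      push_cast at this
      simpa using this
    simp only [sgn, h, decide_true, if_true]
    push_cast
    rw [h2, one_mul]
  · have h1 : (((x - u).natAbs : ℤ)) = -(x - u) := by
      rw [← Int.natAbs_neg]
      exact Int.natAbs_of_nonneg (by omega)
    have h2 : (((x - u).natAbs : ℕ) : ℝ) = -((x : ℝ) - u) := by
      have : ((((x - u).natAbs : ℕ) : ℤ) : ℝ) = ((-(x - u) : ℤ) : ℝ) := by rw [h1]
      push_cast at this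
      simpa using this
    have h3 : (sgn k (decide (u ≤ x)) : ℝ) = (-1) ^ k := by
      simp [sgn, h]
    rw [h3]
    push_cast
    rw [h2, ← mul_pow]
    congr 1
    ring

/-- the phase polynomial -/
noncomputable def PP (k n : ℕ) (τ : Fin n → ℝ) (u : Fin (n + 1) → ℤ) (e : Fin (n + 1) → ℤ) : ℝ[X] :=
  ∑ j : Fin n, C (τ j) * (C (e j.succ : ℝ) * (X - C (u j.succ : ℝ)) ^ k -
    C (e 0 : ℝ) * (X - C (u 0 : ℝ)) ^ k)

lemma PP_natDegree (k n : ℕ) (τ : Fin n → ℝ) (u : Fin (n + 1) → ℤ) (e : Fin (n + 1) → ℤ) :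
    (PP k n τ u e).natDegree ≤ k := by
  unfold PP
  apply Polynomial.natDegree_sum_le_of_forall_le
  intro j _
  have hone : ∀ c r : ℝ, (C c * (X - C r) ^ k : ℝ[X]).natDegree ≤ k := by
    intro c r
    refine (Polynomial.natDegree_C_mul_le _ _).trans ?_
    refine (Polynomial.natDegree_pow_le).trans ?_
    rw [Polynomial.natDegree_X_sub_C, mul_one]
  refine (Polynomial.natDegree_C_mul_le _ _).trans ?_
  exact (Polynomial.natDegree_sub_le_of_le (hone _ _) (hone _ _)).trans (by simp)

lemma PP_coeff (k n : ℕ) (hk : 1 ≤ k) (τ : Fin n → ℝ) (u : Fin (n + 1) → ℤ)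
    (e : Fin (n + 1) → ℤ) :
    (PP k n τ u e).coeff (k - 1) = -((k : ℝ) * ∑ j : Fin n, (τ j * ((e j.succ : ℝ) * u j.succ) -
      τ j * ((e 0 : ℝ) * u 0))) := by
  have hone : ∀ r : ℝ, ((X - C r) ^ k : ℝ[X]).coeff (k - 1) = -(k * r) := by
    intro r
    rw [sub_eq_add_neg, ← C_neg, Polynomial.coeff_X_add_C_pow]
    have h1 : k - (k - 1) = 1 := by omega
    have h2 : k.choose (k - 1) = k := by
      rw [← Nat.choose_symm (Nat.sub_le k 1), h1, Nat.choose_one_right]
    rw [h1, h2]
    ring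
  unfold PP
  rw [Polynomial.finsetSum_coeff, Finset.mul_sum, ← Finset.sum_neg_distrib]
  refine Finset.sum_congr rfl fun j _ => ?_
  rw [Polynomial.coeff_C_mul, Polynomial.coeff_sub, Polynomial.coeff_C_mul,
    Polynomial.coeff_C_mul, hone, hone]
  ring

theorem ks_SG : T_SG := by
  classical
  intro k A hk hW L n δ τ u hL hδ hδ1 hbig
  set f : ℤ → ℂ := fun x =>
    ee (∑ j : Fin n, τ j * ((((x - u j.succ).natAbs ^ k : ℕ) : ℝ) -
      (((x - u 0).natAbs ^ k : ℕ) : ℝ))) with hf
  set g : ℤ → (Fin (n + 1) → Bool) := fun x j => decide (u j ≤ x) with hg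
  have hLr : (1 : ℝ) ≤ L := by exact_mod_cast hL
  have hδL : 0 < δ * L := by positivity
  -- one sign pattern
  obtain ⟨b, hb⟩ : ∃ b : Fin (n + 1) → Bool,
      δ * L ≤ ‖∑ x ∈ (Finset.Ico (0 : ℤ) L).filter (fun x => g x = b), f x‖ := by
    by_contra hcon
    push Not at hcon
    have h1 : Sx k L n τ u = ∑ b : Fin (n + 1) → Bool,
        ∑ x ∈ (Finset.Ico (0 : ℤ) L).filter (fun x => g x = b), f x := by
      rw [Finset.sum_fiberwise]
      rfl
    have h2 : ‖Sx k L n τ u‖ < ∑ _b : Fin (n + 1) → Bool, δ * L := by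
      rw [h1]
      refine (norm_sum_le _ _).trans_lt ?_
      apply Finset.sum_lt_sum_of_nonempty
      · exact Finset.univ_nonempty
      · intro b _
        exact hcon b
    rw [Finset.sum_const, nsmul_eq_mul, Finset.card_univ, Fintype.card_fun, Fintype.card_bool,
      Fintype.card_fin] at h2
    push_cast at h2
    linarith
  set I := (Finset.Ico (0 : ℤ) L).filter (fun x => g x = b) with hI
  have hne : I.Nonempty := by
    rw [Finset.nonempty_iff_ne_empty]
    intro h0
    rw [h0, Finset.sum_empty, norm_zero] at hb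
    linarith
  set a := I.min' hne with ha
  set m := I.max' hne with hm
  have haI : a ∈ I := I.min'_mem hne
  have hmI : m ∈ I := I.max'_mem hne
  have haI' := Finset.mem_filter.1 haI
  have hmI' := Finset.mem_filter.1 hmI
  have ha0 : 0 ≤ a := (Finset.mem_Ico.1 haI'.1).1
  have hmL : m < L := (Finset.mem_Ico.1 hmI'.1).2
  have ham : a ≤ m := I.min'_le m hmI
  have hIcc : I = Finset.Icc a m := by
    ext x
    rw [Finset.mem_Icc]
    constructor
    · intro hx
      exact ⟨I.min'_le x hx, I.le_max' x hx⟩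
    · rintro ⟨h1, h2⟩
      rw [hI, Finset.mem_filter, Finset.mem_Ico]
      refine ⟨⟨by omega, by omega⟩, ?_⟩
      funext j
      have h3 : decide (u j ≤ a) = b j := congrFun haI'.2 j
      have h4 : decide (u j ≤ m) = b j := congrFun hmI'.2 j
      show decide (u j ≤ x) = b j
      cases hbj : b j
      · rw [hbj] at h4
        have : ¬ (u j ≤ m) := by simpa using h4
        have : ¬ (u j ≤ x) := by omega
        simpa using this
      · rw [hbj] at h3
        have : u j ≤ a := by simpa using h3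
        have : u j ≤ x := by omega
        simpa using this
  obtain ⟨N, hN⟩ : ∃ N : ℕ, (N : ℤ) = m + 1 - a := ⟨(m + 1 - a).toNat,
    Int.toNat_of_nonneg (by omega)⟩
  set e : Fin (n + 1) → ℤ := fun j => sgn k (b j) with he
  have hsum : ∑ x ∈ I, f x = ∑ i ∈ Finset.range N, ee ((PP k n τ u e).eval ((a : ℝ) + i)) := by
    symm
    refine Finset.sum_bij' (fun (i : ℕ) _ => a + (i : ℤ)) (fun (x : ℤ) _ => (x - a).toNat)
      ?_ ?_ ?_ ?_ ?_
    · intro i hi
      rw [Finset.mem_range] at hi
      rw [hIcc, Finset.mem_Icc]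
      omega
    · intro x hx
      rw [hIcc, Finset.mem_Icc] at hx
      rw [Finset.mem_range]
      omega
    · intro i _
      simp
    · intro x hx
      rw [hIcc, Finset.mem_Icc] at hx
      show a + ((x - a).toNat : ℤ) = x
      omega
    · intro i hi
      have hx : a + (i : ℤ) ∈ I := by
        rw [Finset.mem_range] at hi
        rw [hIcc, Finset.mem_Icc]
        omega
      have hgx : g (a + (i : ℤ)) = b := (Finset.mem_filter.1 hx).2
      show ee _ = ee _
      congr 1
      unfold PP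
      rw [Polynomial.eval_finsetSum]
      refine Finset.sum_congr rfl fun j _ => ?_
      have hs : ∀ l : Fin (n + 1), ((((a + (i : ℤ)) - u l).natAbs ^ k : ℕ) : ℝ) =
          (e l : ℝ) * (((a : ℝ) + i) - u l) ^ k := by
        intro l
        rw [natAbs_pow_eq]
        have : decide (u l ≤ a + (i : ℤ)) = b l := congrFun hgx l
        rw [this]
        push_cast
        rfl
      rw [hs, hs]
      simp only [eval_mul, eval_C, eval_sub, eval_pow, eval_X]
  rw [hsum] at hb
  have hNL : (N : ℝ) ≤ L := by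
    have : (N : ℤ) ≤ L := by omega
    exact_mod_cast this
  have haN : (a : ℝ) + N ≤ L := by
    have : a + (N : ℤ) ≤ L := by omega
    exact_mod_cast this
  have ha0' : (0 : ℝ) ≤ a := by exact_mod_cast ha0
  obtain ⟨q, hq1, hqA, hdn⟩ := hW.2 (PP k n τ u e) a N L δ (PP_natDegree k n τ u e) hLr hNL
    (by linarith) (by linarith) hδ hδ1 hb
  refine ⟨e, fun j => sgn_or k (b j), q, hq1, hqA, ?_⟩
  rw [PP_coeff k n (by omega)] at hdn
  refine le_trans ?_ hdn
  rw [mul_neg]
  have h1 := dn_neg_le (-((q : ℝ) * ((k : ℝ) * ∑ j : Fin n, (τ j * ((e j.succ : ℝ) * u j.succ) -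
      τ j * ((e 0 : ℝ) * u 0)))))
  rwa [neg_neg] at h1

end Pool.Agent.H84.KS.SG
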